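import Pool.Agent.Helper98.ZA.Stmts
import Pool.Agent.Helper98.TA.Basic

/-!
Row ZMJ of the sheet ZA: ergodic joinings of the powers of the transformation of `B`.
-/

set_option linter.unusedSectionVars false

open MeasureTheory Filter Topology Finset
open scoped ComplexConjugate

namespace Pool.Agent.Helper99.ZA

open Pool.Agent.Helper98.TW
open Pool.Agent.Helper98.TA
open Pool.Agent.Helper98.ZA
open Pool.Agent.Helper98.GY (JY JJY)
open Pool.Agent.Helper40.TWM (St)

section

variable {Ω : Type} [m0 : MeasurableSpace Ω] {μ : Measure Ω} [IsProbabilityMeasure μ]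
  {S S' : Ω → Ω} {u : ℕ → Ω → ℂ} {N m : ℕ} {B : Set Ω}

theorem iter_comm (S : Ω → Ω) (m p i : ℕ) (x : Ω) :
    (S^[m])^[p] (S^[i] x) = S^[i] (S^[p * m] x) := by
  rw [← Function.iterate_mul, mul_comm p m, ← Function.iterate_add_apply,
    ← Function.iterate_add_apply, add_comm]

/-- the inverse images of `B` cover the space -/
theorem zmj_cover (hS : Sys μ S S') (hP : Pe μ S S' u N m B) :
    ∀ᵐ x ∂μ, ∃ i < m, S^[i] x ∈ B := by
  have hms : ∀ i, MeasurableSet (S^[i] ⁻¹' B) := fun i => (hS.iterate i).mp.measurable hP.meas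
  have hmu : ∀ i, μ (S^[i] ⁻¹' B) = μ B := fun i =>
    (hS.iterate i).mp.measure_preimage hP.meas.nullMeasurableSet
  have hdis : ∀ i j, i < j → j < m → μ (S^[i] ⁻¹' B ∩ S^[j] ⁻¹' B) = 0 := by
    intro i j hij hj
    have h1 : S^[i] ⁻¹' B ∩ S^[j] ⁻¹' B = S^[i] ⁻¹' (B ∩ S^[j - i] ⁻¹' B) := by
      ext x
      simp only [Set.mem_inter_iff, Set.mem_preimage]
      rw [← Function.iterate_add_apply, Nat.sub_add_cancel hij.le]
    rw [h1, (hS.iterate i).mp.measure_preimage
      (hP.meas.inter (hms _)).nullMeasurableSet]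
    exact hP.disj (j - i) (by omega) (by omega)
  have hU : μ (⋃ i ∈ range m, S^[i] ⁻¹' B) = 1 := by
    rw [measure_biUnion_finset₀]
    · rw [Finset.sum_congr rfl fun i _ => hmu i]
      simp only [Finset.sum_const, card_range, nsmul_eq_mul]
      exact hP.mass
    · intro i hi j hj hij
      have hi' : i < m := by simpa using hi
      have hj' : j < m := by simpa using hj
      rcases lt_or_gt_of_ne hij with h | h
      · exact hdis i j h hj'
      · have h2 := hdis j i h hi'
        show μ (S^[i] ⁻¹' B ∩ S^[j] ⁻¹' B) = 0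
        rw [Set.inter_comm]
        exact h2
    · intro i _
      exact (hms i).nullMeasurableSet
  have hUm : MeasurableSet (⋃ i ∈ range m, S^[i] ⁻¹' B) :=
    Finset.measurableSet_biUnion _ fun i _ => hms i
  have h3 : ∀ᵐ x ∂μ, x ∈ ⋃ i ∈ range m, S^[i] ⁻¹' B :=
    (prob_compl_eq_zero_iff hUm).2 hU
  filter_upwards [h3] with x hx
  simpa using hx

theorem zmj_one (hS : Sys μ S S') (hP : Pe μ S S' u N m B) {X : Type} [MeasurableSpace X]
    (κ : Measure X) [IsProbabilityMeasure κ] (T : X → X) (hT : Ergodic T κ) (π : X → Ω)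
    (hπ : Measurable π) (hac : κ.map π ≪ μ) (p : ℕ) (hp : 1 ≤ p)
    (hsemi : ∀ z, π (T z) = S^[p * m] (π z)) :
    ∃ i < m, (∀ᵐ z ∂κ, S^[i] (π z) ∈ B) ∧
      κ.map (fun z => S^[i] (π z)) = ProbabilityTheory.cond μ B := by
  have hSm : ∀ n, Measurable S^[n] := fun n => (hS.iterate n).mp.measurable
  have htr : ∀ P : Ω → Prop, (∀ᵐ x ∂μ, P x) → ∀ᵐ z ∂κ, P (π z) := by
    intro P h
    exact ae_of_ae_map hπ.aemeasurable (hac.ae_le h)
  have hcov := htr _ (zmj_cover hS hP)
  -- zero one law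
  have hzo : ∀ i, (∀ᵐ z ∂κ, S^[i] (π z) ∈ B) ∨ ∀ᵐ z ∂κ, S^[i] (π z) ∉ B := by
    intro i
    have hm1 : MeasurableSet {z | S^[i] (π z) ∈ B} := ((hSm i).comp hπ) hP.meas
    refine hT.quasiErgodic.ae_mem_or_ae_notMem₀ (s := {z | S^[i] (π z) ∈ B})
      hm1.nullMeasurableSet ?_
    have h1 : (S^[m])^[p] ⁻¹' B =ᵐ[μ] B :=
      (hS.iterate m).mp.quasiMeasurePreserving.preimage_iterate_ae_eq p hP.per
    have h2 : ∀ᵐ x ∂μ, ((S^[m])^[p] x ∈ B ↔ x ∈ B) := by
      filter_upwards [eventuallyEq_set.1 h1] with x hx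
      exact hx
    have h3 : ∀ᵐ x ∂μ, ((S^[m])^[p] (S^[i] x) ∈ B ↔ S^[i] x ∈ B) :=
      (hS.iterate i).mp.quasiMeasurePreserving.ae h2
    refine eventuallyEq_set.2 ?_
    filter_upwards [htr _ h3] with z hz
    show S^[i] (π (T z)) ∈ B ↔ S^[i] (π z) ∈ B
    rw [hsemi, ← iter_comm]
    exact hz
  have hex : ∃ i < m, ∀ᵐ z ∂κ, S^[i] (π z) ∈ B := by
    by_contra hno
    have h1 : ∀ i ∈ range m, ∀ᵐ z ∂κ, S^[i] (π z) ∉ B := by
      intro i hi
      rcases hzo i with h | h
      · exact absurd ⟨i, mem_range.1 hi, h⟩ hno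
      · exact h
    have h2 : ∀ᵐ z ∂κ, ∀ i ∈ range m, S^[i] (π z) ∉ B := (Finset.eventually_all _).2 h1
    have h3 : ∀ᵐ z ∂κ, False := by
      filter_upwards [h2, hcov] with z hz hz'
      obtain ⟨i, hi, hB⟩ := hz'
      exact hz i (mem_range.2 hi) hB
    have h4 : κ Set.univ = 0 := by
      have := ae_iff.1 h3
      simpa only [not_false_eq_true, Set.ofPred_true] using this
    rw [measure_univ] at h4
    exact one_ne_zero h4
  obtain ⟨i, hi, hB⟩ := hex
  refine ⟨i, hi, hB, ?_⟩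
  have hμB : μ B ≠ 0 := by
    intro h
    have := hP.mass
    rw [h, mul_zero] at this
    exact zero_ne_one this
  have hcp : IsProbabilityMeasure (ProbabilityTheory.cond μ B) :=
    ProbabilityTheory.cond_isProbabilityMeasure hμB
  have hgm : Measurable (fun z => S^[i] (π z)) := (hSm i).comp hπ
  have hlp : IsProbabilityMeasure (κ.map fun z => S^[i] (π z)) :=
    Measure.isProbabilityMeasure_map hgm.aemeasurable
  refine (hP.st.erg p hp).eq_of_absolutelyContinuous ?_ ?_
  · refine ⟨?_, ?_⟩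
    · rw [← Function.iterate_mul]
      exact hSm _
    · rw [Measure.map_map (by rw [← Function.iterate_mul]; exact hSm _) hgm]
      have h1 : ((S^[m])^[p]) ∘ (fun z => S^[i] (π z)) = (fun z => S^[i] (π z)) ∘ T := by
        funext z
        simp only [Function.comp_apply]
        rw [hsemi, iter_comm]
      rw [h1, ← Measure.map_map hgm hT.toMeasurePreserving.measurable,
        hT.toMeasurePreserving.map_eq]
  · refine Measure.AbsolutelyContinuous.mk fun s hs h0 => ?_
    rw [ProbabilityTheory.cond_apply hP.meas] at h0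
    have h1 : μ (B ∩ s) = 0 := by
      rcases mul_eq_zero.1 h0 with h | h
      · exact absurd (ENNReal.inv_eq_zero.1 h) (measure_ne_top μ B)
      · exact h
    rw [Measure.map_apply hgm hs]
    have h2 : ∀ᵐ x ∂μ, S^[i] x ∉ B ∩ s := by
      have h3 : ∀ᵐ x ∂μ, x ∉ B ∩ s := measure_eq_zero_iff_ae_notMem.1 h1
      exact (hS.iterate i).mp.quasiMeasurePreserving.ae h3
    refine measure_eq_zero_iff_ae_notMem.2 ?_
    filter_upwards [htr _ h2, hB] with z hz hz' hzs
    exact hz ⟨hz', hzs⟩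

end

theorem st_ZMJ : ST_ZMJ := by
  intro Ω _ μ _ S S' u N m B hS he hP p q κ hκ hp hq hT h1 h2
  have hSm : ∀ n, Measurable S^[n] := fun n => (hS.iterate n).mp.measurable
  obtain ⟨i, hi, hiB, hic⟩ := zmj_one hS hP κ _ hT Prod.fst measurable_fst h1 p hp
    (fun _ => rfl)
  obtain ⟨j, hj, hjB, hjc⟩ := zmj_one hS hP κ _ hT Prod.snd measurable_snd h2 q hq
    (fun _ => rfl)
  refine ⟨i, hi, j, hj, ?_, ?_⟩
  · have hgm : Measurable (Prod.map S^[i] S^[j]) := (hSm i).prodMap (hSm j)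
    have hmp : MeasurePreserving (Prod.map S^[i] S^[j]) κ (κ.map (Prod.map S^[i] S^[j])) :=
      ⟨hgm, rfl⟩
    refine ⟨Measure.isProbabilityMeasure_map hgm.aemeasurable, ?_, ?_, ?_⟩
    · rw [Measure.map_map measurable_fst hgm]
      exact hic
    · rw [Measure.map_map measurable_snd hgm]
      exact hjc
    · refine hmp.ergodic_of_ergodic_semiconj hT ?_ (fun z => ?_)
      · refine Measurable.prodMap ?_ ?_
        · rw [← Function.iterate_mul]; exact hSm _
        · rw [← Function.iterate_mul]; exact hSm _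
      · exact Prod.ext (iter_comm S m p i z.1).symm (iter_comm S m q j z.2).symm
  · filter_upwards [hiB, hjB] with z h1 h2
    exact ⟨h1, h2⟩

end Pool.Agent.Helper99.ZA
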