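import Pool.Agent.Helper98.ZA.Stmts
import Pool.Agent.Helper98.TA.Basic

/-!
Row ZRL of the sheet ZA: the first `k` functions as a tower on `ℂ^k`.
-/

set_option linter.unusedSectionVars false

open MeasureTheory Filter Topology Finset
open scoped ComplexConjugate

namespace Pool.Agent.Helper99.ZA

open Pool.Agent.Helper98.TW
open Pool.Agent.Helper98.TA
open Pool.Agent.Helper98.ZA

/-- the direction of a complex number -/
noncomputable def Sg (w : ℂ) : ℂ := if ‖w‖ = 1 then w else 1

theorem Sg_norm (w : ℂ) : ‖Sg w‖ = 1 := by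
  unfold Sg
  split_ifs with h
  · exact h
  · simp

theorem Sg_of (w : ℂ) (h : ‖w‖ = 1) : Sg w = w := if_pos h

theorem Sg_meas : Measurable Sg :=
  Measurable.ite (measurable_norm (measurableSet_singleton _)) measurable_id measurable_const

theorem Sg_mul_conj (w : ℂ) : Sg w * conj (Sg w) = 1 := by
  rw [Complex.mul_conj, Complex.normSq_eq_norm_sq, Sg_norm]
  simp

/-- the transformation of `ℂ^k` -/
noncomputable def RR (g : ∀ i, (Fin i → ℂ) → ℂ) : ∀ k, (Fin k → ℂ) → (Fin k → ℂ)
  | 0 => id
  | k + 1 => fun z => Fin.snoc (α := fun _ => ℂ) (RR g k (Fin.init z))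
      (z (Fin.last k) * Sg (g k (Fin.init z)))

/-- its inverse -/
noncomputable def RI (g : ∀ i, (Fin i → ℂ) → ℂ) : ∀ k, (Fin k → ℂ) → (Fin k → ℂ)
  | 0 => id
  | k + 1 => fun w => Fin.snoc (α := fun _ => ℂ) (RI g k (Fin.init w))
      (w (Fin.last k) * conj (Sg (g k (RI g k (Fin.init w)))))

theorem RR_last (g : ∀ i, (Fin i → ℂ) → ℂ) (k : ℕ) (z : Fin (k + 1) → ℂ) :
    RR g (k + 1) z (Fin.last k) = z (Fin.last k) * Sg (g k (Fin.init z)) :=
  Fin.snoc_last (α := fun _ => ℂ) _ _

theorem RR_init (g : ∀ i, (Fin i → ℂ) → ℂ) (k : ℕ) (z : Fin (k + 1) → ℂ) :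
    Fin.init (RR g (k + 1) z) = RR g k (Fin.init z) := Fin.init_snoc (α := fun _ => ℂ) _ _

theorem RI_last (g : ∀ i, (Fin i → ℂ) → ℂ) (k : ℕ) (w : Fin (k + 1) → ℂ) :
    RI g (k + 1) w (Fin.last k) = w (Fin.last k) * conj (Sg (g k (RI g k (Fin.init w)))) :=
  Fin.snoc_last (α := fun _ => ℂ) _ _

theorem RI_init (g : ∀ i, (Fin i → ℂ) → ℂ) (k : ℕ) (w : Fin (k + 1) → ℂ) :
    Fin.init (RI g (k + 1) w) = RI g k (Fin.init w) := Fin.init_snoc (α := fun _ => ℂ) _ _

theorem RI_RR (g : ∀ i, (Fin i → ℂ) → ℂ) (k : ℕ) (z : Fin k → ℂ) : RI g k (RR g k z) = z := by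
  induction k with
  | zero => rfl
  | succ k ih =>
    show Fin.snoc (α := fun _ => ℂ) (RI g k (Fin.init (Fin.snoc (α := fun _ => ℂ)
      (RR g k (Fin.init z)) (z (Fin.last k) * Sg (g k (Fin.init z)))))) _ = z
    have h1 : Fin.init (Fin.snoc (α := fun _ => ℂ)
      (RR g k (Fin.init z)) (z (Fin.last k) * Sg (g k (Fin.init z)))) = RR g k (Fin.init z) :=
      Fin.init_snoc _ _
    rw [h1, ih]
    have h2 : (RR g (k + 1) z) (Fin.last k) * conj (Sg (g k (RI g k (Fin.init
        (RR g (k + 1) z))))) = z (Fin.last k) := by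
      rw [RR_last, RR_init, ih]
      have := Sg_mul_conj (g k (Fin.init z))
      linear_combination (z (Fin.last k)) * this
    rw [h2]
    exact Fin.snoc_init_self z

theorem RR_RI (g : ∀ i, (Fin i → ℂ) → ℂ) (k : ℕ) (w : Fin k → ℂ) : RR g k (RI g k w) = w := by
  induction k with
  | zero => rfl
  | succ k ih =>
    show Fin.snoc (α := fun _ => ℂ) (RR g k (Fin.init (RI g (k + 1) w)))
      ((RI g (k + 1) w) (Fin.last k) * Sg (g k (Fin.init (RI g (k + 1) w)))) = w
    rw [RI_last, RI_init, ih]
    have h2 : w (Fin.last k) * conj (Sg (g k (RI g k (Fin.init w)))) *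
        Sg (g k (RI g k (Fin.init w))) = w (Fin.last k) := by
      have := Sg_mul_conj (g k (RI g k (Fin.init w)))
      linear_combination (w (Fin.last k)) * this
    rw [h2]
    exact Fin.snoc_init_self w

theorem meas_init (k : ℕ) : Measurable (fun z : Fin (k + 1) → ℂ => (Fin.init z : Fin k → ℂ)) :=
  measurable_pi_iff.2 fun _ => measurable_pi_apply _

theorem meas_snoc {X : Type} [MeasurableSpace X] (k : ℕ) {a : X → Fin k → ℂ} {b : X → ℂ}
    (ha : Measurable a) (hb : Measurable b) :
    Measurable (fun x => (Fin.snoc (α := fun _ => ℂ) (a x) (b x) : Fin (k + 1) → ℂ)) := by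
  refine measurable_pi_iff.2 fun i => ?_
  refine Fin.lastCases ?_ (fun i => ?_) i
  · simpa using hb
  · simpa using (measurable_pi_iff.1 ha) i

theorem RR_meas {g : ∀ i, (Fin i → ℂ) → ℂ} (hg : ∀ i, Measurable (g i)) (k : ℕ) :
    Measurable (RR g k) := by
  induction k with
  | zero => exact measurable_id
  | succ k ih =>
    refine meas_snoc k (ih.comp (meas_init k)) ?_
    exact (measurable_pi_apply _).mul (Sg_meas.comp ((hg k).comp (meas_init k)))

theorem RI_meas {g : ∀ i, (Fin i → ℂ) → ℂ} (hg : ∀ i, Measurable (g i)) (k : ℕ) :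
    Measurable (RI g k) := by
  induction k with
  | zero => exact measurable_id
  | succ k ih =>
    refine meas_snoc k (ih.comp (meas_init k)) ?_
    exact (measurable_pi_apply _).mul (Complex.continuous_conj.measurable.comp
      (Sg_meas.comp ((hg k).comp (ih.comp (meas_init k)))))

theorem co_lt {k : ℕ} {i : ℕ} (h : i < k) (z : Fin k → ℂ) : co i z = z ⟨i, h⟩ := dif_pos h

theorem co_ge {k : ℕ} {i : ℕ} (h : ¬ i < k) (z : Fin k → ℂ) : co i z = 1 := dif_neg h

theorem co_init {k : ℕ} {i : ℕ} (h : i < k) (z : Fin (k + 1) → ℂ) :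
    co i (Fin.init z : Fin k → ℂ) = co i z := by
  rw [co_lt h, co_lt (Nat.lt_succ_of_lt h)]
  rfl

theorem co_RR (g : ∀ i, (Fin i → ℂ) → ℂ) (k : ℕ) (z : Fin k → ℂ) {i : ℕ} (hi : i < k) :
    co i (RR g k z) = co i z * Sg (g i (fun j : Fin i => co j z)) := by
  induction k with
  | zero => exact absurd hi (Nat.not_lt_zero _)
  | succ k ih =>
    rcases Nat.lt_succ_iff_lt_or_eq.1 hi with h | h
    · rw [← co_init h, RR_init, ih (Fin.init z) h, co_init h]
      have : (fun j : Fin i => co j (Fin.init z : Fin k → ℂ)) = fun j : Fin i => co j z := by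
        funext j
        exact co_init (lt_trans j.2 h) z
      rw [this]
    · subst h
      rw [co_lt hi, co_lt hi]
      have e3 : (⟨i, hi⟩ : Fin (i + 1)) = Fin.last i := rfl
      rw [e3, RR_last]
      have : (Fin.init z : Fin i → ℂ) = fun j : Fin i => co j z := by
        funext j
        rw [co_lt (lt_trans j.2 hi)]
        rfl
      rw [this]

theorem co_meas {k : ℕ} (i : ℕ) : Measurable (fun z : Fin k → ℂ => co i z) := by
  by_cases h : i < k
  · have : (fun z : Fin k → ℂ => co i z) = fun z => z ⟨i, h⟩ := funext fun z => co_lt h z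
    rw [this]
    exact measurable_pi_apply _
  · have : (fun z : Fin k → ℂ => co i z) = fun _ => 1 := funext fun z => co_ge h z
    rw [this]
    exact measurable_const

/-- the algebras of the tower -/
noncomputable def AA {k : ℕ} (μ : Measure (Fin k → ℂ)) : ℕ → SA (Fin k → ℂ)
  | 0 => bo
  | j + 1 => ad μ (AA μ j) (fun z => co j z)

theorem st_ZRL : ST_ZRL := by
  intro Y _ ν _ S u hSm hu k
  choose g hgm hg using hu.inc
  have hprm : Measurable (pr u k) := measurable_pi_iff.2 fun i => hu.meas i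
  set μ : Measure (Fin k → ℂ) := ν.map (pr u k) with hμ
  have hco : ∀ i < k, ∀ y, co i (pr u k y) = u i y := by
    intro i hi y
    rw [co_lt hi]
    rfl
  -- the equation
  have hR : ∀ᵐ y ∂ν, pr u k (S y) = RR g k (pr u k y) := by
    have h1 : ∀ᵐ y ∂ν, ∀ i : ℕ, u i (S y) = u i y * g i (fun j => u j y) :=
      ae_all_iff.2 hg
    filter_upwards [h1] with y hy
    funext i
    have h2 := co_RR g k (pr u k y) i.2
    rw [co_lt i.2, co_lt i.2] at h2
    have h3 : RR g k (pr u k y) i = pr u k y i *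
      Sg (g i (fun j : Fin i => co j (pr u k y))) := h2
    have h4 : (fun j : Fin (i : ℕ) => co j (pr u k y)) = fun j : Fin (i : ℕ) => u j y := by
      funext j
      exact hco _ (lt_trans j.2 i.2) y
    rw [h3, h4]
    have h5 : ‖g i (fun j : Fin (i : ℕ) => u j y)‖ = 1 := by
      have h6 := congrArg norm (hy i)
      rw [norm_mul, hu.norm, hu.norm, one_mul] at h6
      exact h6.symm
    rw [Sg_of _ h5]
    exact hy i
  have hmpR : MeasurePreserving (RR g k) μ μ := by
    refine ⟨RR_meas hgm k, ?_⟩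
    rw [hμ, Measure.map_map (RR_meas hgm k) hprm]
    have h1 : (RR g k) ∘ (pr u k) =ᵐ[ν] (pr u k) ∘ S := by
      filter_upwards [hR] with y hy
      exact hy.symm
    rw [Measure.map_congr h1, ← Measure.map_map hprm hSm.measurable, hSm.map_eq]
  have hmpI : MeasurePreserving (RI g k) μ μ := by
    refine ⟨RI_meas hgm k, ?_⟩
    have h1 : Measure.map (RI g k) (Measure.map (RR g k) μ) = μ := by
      rw [Measure.map_map (RI_meas hgm k) (RR_meas hgm k)]
      have : (RI g k) ∘ (RR g k) = id := funext fun z => RI_RR g k z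
      rw [this, Measure.map_id]
    rwa [hmpR.map_eq] at h1
  have huf : ∀ i, UF μ (fun z => co i z) := by
    intro i
    refine ⟨co_meas i, ?_⟩
    by_cases h : i < k
    · have hms : MeasurableSet {z : Fin k → ℂ | ‖co i z‖ = 1} :=
        (co_meas i).norm (measurableSet_singleton _)
      rw [hμ, ae_map_iff hprm.aemeasurable hms]
      exact Eventually.of_forall fun y => by rw [hco i h, hu.norm]
    · refine Eventually.of_forall fun z => ?_
      have h1 := co_ge h z
      show ‖co i z‖ = 1
      rw [h1]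
      simp
  -- the coordinates are measurable for the algebras
  have hle : ∀ j, @LE.le (MeasurableSpace (Fin k → ℂ)) _ (AA μ j) (AA μ (j + 1)) :=
    fun j => le_ad
  have hcm : ∀ j, ∀ l < j, Measurable[AA μ j] (fun z : Fin k → ℂ => co l z) := by
    intro j
    induction j with
    | zero => intro l hl; exact absurd hl (Nat.not_lt_zero _)
    | succ j ih =>
      intro l hl
      rcases Nat.lt_succ_iff_lt_or_eq.1 hl with h | h
      · exact (ih l h).mono (hle j) le_rfl
      · subst h
        have h1 : Measurable[sg (Pw μ (AA μ l) (fun z => co l z))]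
            (fun z : Fin k → ℂ => co l z) :=
          Pool.Agent.Helper73.TWR.meas_sg (mem_Pw_self (huf l))
        exact h1.mono le_jo_right le_rfl
  refine ⟨RR g k, RI g k, ⟨hmpR, hmpI, Eventually.of_forall fun z => RI_RR g k z,
    Eventually.of_forall fun z => RR_RI g k z⟩, hR, AA μ, rfl, fun _ => rfl, huf, ?_, ?_⟩
  · intro j
    by_cases hj : j < k
    · have h1 : Measurable[AA μ j] (fun z : Fin k → ℂ => Sg (g j (fun l : Fin j => co l z))) := by
        have h2 : Measurable[AA μ j] (fun (z : Fin k → ℂ) (l : Fin j) => co l z) :=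
          @measurable_pi_lambda (Fin k → ℂ) (Fin j) (fun _ => ℂ) (AA μ j) _ _
            fun l => hcm j l l.2
        exact Sg_meas.comp ((hgm j).comp h2)
      refine am_congr (am_of h1) ?_
      filter_upwards [(huf j).mul_conj] with z hz
      rw [co_RR g k z hj]
      linear_combination -(Sg (g j (fun l : Fin j => co l z))) * hz
    · refine am_congr (am_const 1) (Eventually.of_forall fun z => ?_)
      show (1 : ℂ) = co j (RR g k z) * conj (co j z)
      rw [co_ge hj, co_ge hj]
      simp
  · intro f hf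
    have h1 : Measurable[AA μ k, MeasurableSpace.pi] (fun z : Fin k → ℂ => z) := by
      refine @measurable_pi_lambda (Fin k → ℂ) (Fin k) (fun _ => ℂ) (AA μ k) _ _ fun l => ?_
      have h2 := hcm k l l.2
      have h3 : (fun z : Fin k → ℂ => co l z) = fun z => z l := funext fun z => co_lt l.2 z
      rw [h3] at h2
      exact h2
    exact am_of (hf.comp h1)

end Pool.Agent.Helper99.ZA
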